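import Pool.Agent.Helper73.RQ.BLK3

/-!
# Packet BLK: one block of the extremal map for (E3)
-/

set_option autoImplicit false

open MeasureTheory Set Filter Topology Metric

open scoped ENNReal NNReal ContDiff

namespace Pool.Agent.Helper73.RQ

open Pool.Agent.Helper12.RQ

/-- the outer part of the profile, from FLUX -/
theorem outer_profile {n : ℕ} {p w lam r1 b Y k T d₁ d₂ : ℝ} {D : ℝ → ℝ≥0∞} {N : E n → ℝ}
    (h5 : StmtFLUX) (hn : 2 ≤ n) (hp : (n : ℝ) - 1 < p) (hpn : p < n) (hw : 0 < w)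
    (hlam : 0 < lam) (hY : 0 < Y) (hr1 : r1 = lam * Y) (hr1' : r1 < 1)
    (hb : b = (n - 1) * r1 / n) (hT : 1 < T) (hD : IsDens p N D d₁ d₂)
    (hYlam : w ^ (-(1 / (p - 1))) * ((1 / n + 1 / ((n - p) / (p - 1))) *
      (lam * Y) ^ (-((n - p) / (p - 1)))) = lam ^ (-((n - p) / (p - 1))) * k ^ (-(1 / (p - 1))))
    (hint : ENNReal.ofReal (lam ^ (-((n - p) / (p - 1))) * k ^ (-(1 / (p - 1)))) ≤
      ∫⁻ t in Ioo 1 T, D t ^ (-(1 / (p - 1)))) :
    ∃ (h₁ : ℝ → ℝ) (c' C' : ℝ), 0 < c' ∧ h₁ 1 = b ∧ h₁ T = 1 ∧ Sl c' C' h₁ (Icc 1 T) ∧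
      ∀ ψ : ℝ → ℝ≥0∞, Measurable ψ → ∫⁻ t in Ioo 1 T, ψ (h₁ t) * ‖deriv h₁ t‖ₑ ^ p * D t ≤
        ∫⁻ s in Ioo b 1, ψ s * ENNReal.ofReal ((fun s => w ^ (-(1 / (p - 1))) *
          max s r1 ^ (-(1 + (n - p) / (p - 1)))) s ^ (1 - p)) := by
  have hn2 : (2 : ℝ) ≤ n := by exact_mod_cast hn
  have hn0 : (0 : ℝ) < n := by linarith
  have hp1 : 1 < p := by linarith
  have hr10 : 0 < r1 := by rw [hr1]; positivity
  have hb1 : b < 1 := by
    rw [hb, div_lt_iff₀ hn0]; nlinarith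
  have hd2 : 0 ≤ d₂ := by
    have e1 := hD.lower 1 one_pos
    have e2 := hD.upper 1 one_pos
    have e3 := e1.trans e2
    simp only [one_pow, mul_one] at e3
    have e4 := hD.pos
    by_contra hcon
    rw [ENNReal.ofReal_of_nonpos (not_le.1 hcon).le, nonpos_iff_eq_zero,
      ENNReal.ofReal_eq_zero] at e3
    linarith
  have hm : 0 < (n - p) / (p - 1) := div_pos (by linarith) (by linarith)
  have hθc : Continuous fun s : ℝ => w ^ (-(1 / (p - 1))) *
      max s r1 ^ (-(1 + (n - p) / (p - 1))) := by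
    refine Continuous.mul continuous_const (Continuous.rpow_const (by fun_prop) fun s => ?_)
    left
    exact (lt_of_lt_of_le hr10 (le_max_right _ _)).ne'
  obtain ⟨h₁, c', C', hc', e0, e1, e2, e3⟩ := h5 p hp1 D hD.meas 1 T d₁ (d₂ * T ^ (n - 1)) hT hD.pos
    (by
      intro t ht
      have ht0 : 0 < t := by linarith [ht.1]
      constructor
      · refine le_trans (ENNReal.ofReal_le_ofReal ?_) (hD.lower t ht0)
        have : 1 ≤ t ^ (n - 1) := one_le_pow₀ ht.1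
        have := hD.pos
        nlinarith
      · refine le_trans (hD.upper t ht0) (ENNReal.ofReal_le_ofReal ?_)
        have : t ^ (n - 1) ≤ T ^ (n - 1) := pow_le_pow_left₀ ht0.le ht.2 _
        nlinarith)
    b 1 (fun s => w ^ (-(1 / (p - 1))) * max s r1 ^ (-(1 + (n - p) / (p - 1)))) hb1
    hθc.continuousOn
    (by
      intro s _
      have hx : 0 < max s r1 := lt_of_lt_of_le hr10 (le_max_right _ _)
      positivity)
    (by
      refine le_trans (ENNReal.ofReal_le_ofReal ?_) hint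
      rw [← hYlam, ← hr1]
      exact theta_bound n _ b r1 _ hn hm hr10 hr1'.le hb (by positivity))
  refine ⟨h₁, c', C', hc', e0, e1, ?_, e3⟩
  intro s hs t ht hst
  exact e2 s t hs.1 hst ht.2

/-- the energies of the block -/
theorem energies {n : ℕ} {p c l lam a σ g δ₁ b' b K T r1 w ε ch Ch d₁ d₂ : ℝ} {N : E n → ℝ}
    {D : ℝ → ℝ≥0∞} {h h₁ : ℝ → ℝ}
    (h2 : StmtDENS) (h4 : StmtCHAIN) (hn : 2 ≤ n) (hp : (n : ℝ) - 1 < p) (hpn : p < n)
    (hN : IsStar c l N) (hD : IsDens p N D d₁ d₂) (hlam : 0 < lam) (ha : 0 < a) (hσ : 0 < σ)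
    (hε : (1 + σ) ^ p ≤ 1 + ε) (hag : a < g) (hg1 : g < 1) (hgδ : δ₁ = g / lam) (hδ1 : δ₁ < 1)
    (hb' : a * (g / a) ^ (1 + σ) = b') (hga : (g / a) ^ σ = b' / g)
    (hbb : b' < b) (hK : K = (b - b') / (1 - δ₁)) (hw : w = om n)
    (hr1 : 0 < r1)
    (hNg : ∀ y, ‖y‖ ≤ g → N y = ‖y‖ / lam) (hN1 : ∀ y, ‖y‖ = 1 → N y = T)
    (hch : 0 < ch) (hh : Sl ch Ch h univ)
    (hpow : ∀ t ∈ Icc (a / lam) δ₁, h t = a * (lam * t / a) ^ (1 + σ))
    (hlin : ∀ t ∈ Icc δ₁ 1, h t = b' + K * (t - δ₁))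
    (hout : ∀ t ∈ Icc 1 T, h t = h₁ t)
    (hf : ∀ ψ : ℝ → ℝ≥0∞, Measurable ψ → ∫⁻ t in Ioo 1 T, ψ (h₁ t) * ‖deriv h₁ t‖ₑ ^ p * D t ≤
        ∫⁻ s in Ioo b 1, ψ s * ENNReal.ofReal ((fun s => w ^ (-(1 / (p - 1))) *
          max s r1 ^ (-(1 + (n - p) / (p - 1)))) s ^ (1 - p))) :
    (∀ r, a ≤ r → r ≤ b' →
      ∫⁻ y in {y | a < ‖y‖ ∧ ‖y‖ < 1 ∧ h (N y) < r}, ‖fderiv ℝ (fun z => h (N z)) y‖ₑ ^ p ≤
        ENNReal.ofReal ((1 + ε) * (om n / n * (r ^ n - a ^ n)))) ∧
    (∀ r, r ≤ 1 →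
      ∫⁻ y in {y | a < ‖y‖ ∧ ‖y‖ < 1 ∧ h (N y) < r}, ‖fderiv ℝ (fun z => h (N z)) y‖ₑ ^ p ≤
        ENNReal.ofReal ((1 + ε) * (om n / n * (b' ^ p * g ^ (n - p)))) +
          ENNReal.ofReal (d₂ * K ^ p) +
          ∫⁻ s in Ioo b r, ENNReal.ofReal (om n * max s r1 ^ (n - 1))) := by
  have hn2 : (2 : ℝ) ≤ n := by exact_mod_cast hn
  have hn0 : (0 : ℝ) < n := by linarith
  have hp1 : 1 < p := by linarith
  have hp0 : 0 ≤ p := by linarith
  have h1σ : 0 < 1 + σ := by linarith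
  have hg0 : 0 < g := ha.trans hag
  have hδ0 : 0 < δ₁ := by rw [hgδ]; positivity
  have hagl : a / lam ≤ δ₁ := by rw [hgδ]; gcongr
  have hd2 : 0 ≤ d₂ := by
    have e1 := hD.lower 1 one_pos
    have e2 := hD.upper 1 one_pos
    have e3 := e1.trans e2
    simp only [one_pow, mul_one] at e3
    have e4 := hD.pos
    by_contra hcon
    rw [ENNReal.ofReal_of_nonpos (not_le.1 hcon).le, nonpos_iff_eq_zero,
      ENNReal.ofReal_eq_zero] at e3
    linarith
  have hgg : ∀ y, ‖y‖ = g → N y = δ₁ := by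
    intro y hy
    rw [hNg y hy.le, hy, hgδ]
  have hR : ∀ z : E n, a ≤ ‖z‖ → ‖z‖ ≤ g → h (N z) = a * (‖z‖ / a) ^ (1 + σ) := by
    intro z hz1 hz2
    rw [hNg z hz2, hpow (‖z‖ / lam) ⟨by gcongr, by rw [hgδ]; gcongr⟩]
    congr 3
    field_simp
  have hmono : ∀ s t, s ≤ t → h s ≤ h t := by
    intro s t hst
    have h1 := (hh s (mem_univ _) t (mem_univ _) hst).1
    have h3 : 0 ≤ ch * (t - s) := mul_nonneg hch.le (by linarith)
    linarith
  have hhδ : h δ₁ = b' := by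
    have := hlin δ₁ ⟨le_rfl, hδ1.le⟩
    rw [this]; ring
  have hlip : LipschitzWith (Real.toNNReal Ch) h := hh.lip hch.le
  constructor
  · intro r har hrb
    have hra : 1 ≤ r / a := (one_le_div ha).2 har
    have hra0 : 0 < r / a := by linarith
    set g' := a * (r / a) ^ (1 / (1 + σ)) with hg'
    have e1 : a * (g' / a) ^ (1 + σ) = r := by
      have : g' / a = (r / a) ^ (1 / (1 + σ)) := by rw [hg']; field_simp
      rw [this, ← Real.rpow_mul hra0.le, one_div_mul_cancel h1σ.ne', Real.rpow_one]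
      field_simp
    have e2 : a ≤ g' := by
      have : 1 ≤ (r / a) ^ (1 / (1 + σ)) := Real.one_le_rpow hra (by positivity)
      rw [hg']; nlinarith
    have e3 : g' ≤ g := by
      have h1 : r / a ≤ (g / a) ^ (1 + σ) := by
        rw [div_le_iff₀ ha, mul_comm, hb']; exact hrb
      have h2 : (r / a) ^ (1 / (1 + σ)) ≤ ((g / a) ^ (1 + σ)) ^ (1 / (1 + σ)) :=
        Real.rpow_le_rpow hra0.le h1 (by positivity)
      rw [← Real.rpow_mul (by positivity), mul_one_div_cancel h1σ.ne', Real.rpow_one,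
        le_div_iff₀ ha, mul_comm] at h2
      exact h2
    have h1 := inner1 (R₀ := fun z => h (N z)) hn hp0 hpn.le ha hσ hε e2 e3
      (fun z hz1 hz2 => hR z hz1.le hz2.le)
    rw [e1] at h1
    refine le_trans (lintegral_mono_set ?_) h1
    rintro y ⟨hy1, hy2, hy3⟩
    refine ⟨hy1, ?_⟩
    by_contra hcon
    have hcon' : g' ≤ ‖y‖ := not_lt.1 hcon
    rcases le_or_gt ‖y‖ g with h5 | h5
    · rw [hR y hy1.le h5] at hy3
      have h6 : a * (g' / a) ^ (1 + σ) ≤ a * (‖y‖ / a) ^ (1 + σ) := by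
        have h7 : (g' / a) ^ (1 + σ) ≤ (‖y‖ / a) ^ (1 + σ) :=
          Real.rpow_le_rpow (by positivity) (by gcongr) h1σ.le
        exact mul_le_mul_of_nonneg_left h7 ha.le
      linarith
    · have h6 := star_gt hN hg0 hgg y h5
      have h7 := hmono _ _ h6.le
      rw [hhδ] at h7
      linarith
  · intro r hr
    have hsub : {y | a < ‖y‖ ∧ ‖y‖ < 1 ∧ h (N y) < r} ⊆
        (({y : E n | ‖y‖ ∈ Ioo a g} ∪ N ⁻¹' {δ₁, 1}) ∪ N ⁻¹' Ioo δ₁ 1) ∪
          (N ⁻¹' Ioo 1 T ∩ {y | h (N y) < r}) := by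
      rintro y ⟨hy1, hy2, hy3⟩
      rcases lt_trichotomy ‖y‖ g with h5 | h5 | h5
      · exact Or.inl (Or.inl (Or.inl ⟨hy1, h5⟩))
      · exact Or.inl (Or.inl (Or.inr (Or.inl (hgg y h5))))
      · have h6 := star_gt hN hg0 hgg y h5
        have h7 := star_lt hN hN1 y (ha.trans hy1) hy2
        rcases lt_trichotomy (N y) 1 with h8 | h8 | h8
        · exact Or.inl (Or.inr ⟨h6, h8⟩)
        · exact Or.inl (Or.inl (Or.inr (Or.inr h8)))
        · exact Or.inr ⟨⟨h8, h7⟩, hy3⟩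
    refine (lintegral_mono_set hsub).trans ?_
    refine (lintegral_union_le _ _ _).trans ?_
    refine add_le_add ?_ ?_
    · refine (lintegral_union_le _ _ _).trans ?_
      refine add_le_add ?_ ?_
      · refine (lintegral_union_le _ _ _).trans ?_
        have hz : ∫⁻ y in N ⁻¹' {δ₁, 1}, ‖fderiv ℝ (fun z => h (N z)) y‖ₑ ^ p = 0 := by
          apply setLIntegral_measure_zero
          refine (h2 n p c l N hn hp1.le hN).2 {δ₁, 1} ?_ ?_
          · rintro s (rfl | rfl)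
            · exact hδ0
            · exact (one_pos : (0 : ℝ) < 1)
          · exact (Set.toFinite _).measure_zero _
        rw [hz, add_zero]
        have hb'0 : 0 < b' := by rw [← hb']; positivity
        exact inner2 (R₀ := fun z => h (N z)) hn hp0 ha hσ hε hag hb'0 hga
          (fun z hz1 hz2 => hR z hz1.le hz2.le)
      · refine piece_lin h4 hn hp1.le hN hD hlip hδ0 ?_ hd2 hlin
        rw [hK]
        exact div_nonneg (by linarith) (by linarith)
    · refine (piece_flux h4 hn hp1.le hN hD hlip hout hf).trans ?_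
      apply le_of_eq
      refine setLIntegral_congr_fun measurableSet_Ioo fun s _ => ?_
      have hw0 : 0 < w := by rw [hw]; exact om_pos n (by omega)
      have h9 := theta_pow (n := n) (p := p) (w := w) (r1 := r1) (s := s) hn hp1 hw0 hr1
      rw [h9, hw]

theorem ax1 {n r : ℝ} (hn : 2 ≤ n) (_hr : 0 < r) (h : r < 1) : (n - 1) * r / n < 1 := by
  rw [div_lt_iff₀ (by linarith)]; nlinarith

theorem ax2 {x w g : ℝ} (hg : g ≤ 1 / 2) (hw : 0 < w) (h : 2 * x ≤ w) : x / (1 - g) ≤ w := by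
  rw [div_le_iff₀ (by linarith)]; nlinarith

theorem ax3 {k x η : ℝ} (hx : 0 ≤ x) (h : (k + 1) * x ≤ η) : k * x ≤ η := by nlinarith

theorem ax4 {k x y η : ℝ} (hk : 0 < k) (h : x ≤ y) (hη : 0 < η) (h' : (1 + k) * y ≤ η / 2) :
    (1 + k) * x ≤ η := by nlinarith

theorem ax5 {k x : ℝ} (hk : 0 < k) (hx : x ≤ 1) : k * x / 2 ≤ k / 2 := by nlinarith

theorem ax6 {k x : ℝ} (hk : k < 1) (hx : 0 < x) : 2 * (k * x / 2) ≤ x := by nlinarith

theorem ax7 {c k x u v : ℝ} (hc : 0 < c) (h : k * x ≤ u) (h' : c * u ≤ v) : c * k * x ≤ v := by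
  nlinarith

theorem blk (h1 : StmtNEEDLE) (h2 : StmtDENS) (h3 : StmtSCAL) (h4 : StmtCHAIN) (h5 : StmtFLUX)
    (h6 : StmtPOS) : StmtBLK := by
  intro n p hn hp hpn ε hε hε1
  have hn2 : (2 : ℝ) ≤ n := by exact_mod_cast hn
  have hn0 : (0 : ℝ) < n := by linarith
  have hd : 0 < n - p := by linarith
  have hp1 : 1 < p := by linarith
  have hp0 : 0 < p := by linarith
  have hom : 0 < om n := om_pos n (by omega)
  obtain ⟨hs0, hst⟩ := h6 n p hn hp hpn
  have hκ : 0 < kap n p := ENNReal.toReal_pos hs0.ne' hst.ne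
  have hκe : segCap n p = ENNReal.ofReal (kap n p) := (ENNReal.ofReal_toReal hst.ne).symm
  obtain ⟨Y, hY, hC3, hYlam⟩ := consts n p ε (om n) (kap n p) hn hp hpn hε hom hκ
  have hke1 : 1 < (1 + ε) ^ (n - p) := Real.one_lt_rpow (by linarith) hd
  have hε0 : 0 < kap n p * ((1 + ε) ^ (n - p) - 1) := mul_pos hκ (by linarith)
  obtain ⟨M₀, hM₀, hneedle⟩ := h1 n p hn hp hpn _ hε0
  obtain ⟨M, hM, hMY⟩ : ∃ M, M₀ ≤ M ∧ Y < M :=
    ⟨max M₀ (Y + 1), le_max_left _ _, lt_of_lt_of_le (by linarith) (le_max_right _ _)⟩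
  have hM1 : 1 < M := lt_of_lt_of_le hM₀ hM
  have hM0 : 0 < M := by linarith
  obtain ⟨N, e, A, δ, c₀, l₀, he, hA, hδ, hδ1, hN, hNδ, hNM, hNe, hND⟩ := hneedle M hM
  obtain ⟨⟨D, d₁, d₂, hD⟩, -⟩ := h2 n p c₀ l₀ N hn hp1.le hN
  have hND' := hND D d₁ d₂ hD
  set lam := M⁻¹ with hlamdef
  have hlam : 0 < lam := inv_pos.2 hM0
  have hlam1 : lam < 1 := inv_lt_one_of_one_lt₀ hM1
  have hlamM : lam⁻¹ = M := inv_inv M
  have hNc : Continuous N := by
    have : LipschitzWith (Real.toNNReal l₀) N := by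
      refine LipschitzWith.of_dist_le_mul fun x y => ?_
      have h1 := hN.lip x y
      rw [Real.dist_eq, dist_eq_norm]
      refine h1.trans ?_
      gcongr
      exact Real.le_coe_toNNReal l₀
    exact this.continuous
  have hNl := star_scale hN hlam
  have hDl := dens_scale h3 hp0 hNc hD hlam
  set Nl : E n → ℝ := fun y => N (lam⁻¹ • y) with hNldef
  set Dl : ℝ → ℝ≥0∞ := fun t => ENNReal.ofReal (lam ^ (n - p)) * D t with hDldef
  have hT : 1 < M + A := by linarith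
  set T := M + A with hTdef
  set r1 := lam * Y with hr1def
  have hr1 : 0 < r1 := by positivity
  have hr1' : r1 < 1 := by
    rw [hr1def, hlamdef, inv_mul_lt_iff₀ hM0, mul_one]; exact hMY
  set b := (n - 1) * r1 / n with hbdef
  have hb0 : 0 < b := by
    have : (0 : ℝ) < n - 1 := by linarith
    positivity
  have hb1 : b < 1 := ax1 hn2 hr1 hr1'
  have hk : 0 < kap n p * (1 + ε) ^ (n - p) := by positivity
  have hS : segCap n p + ENNReal.ofReal (kap n p * ((1 + ε) ^ (n - p) - 1)) =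
      ENNReal.ofReal (kap n p * (1 + ε) ^ (n - p)) := by
    rw [hκe, ← ENNReal.ofReal_add hκ.le hε0.le]
    congr 1
    ring
  have hint := flux_hyp (n := n) hlam hk hS hND'
  obtain ⟨h₁, c', C', hc', e0, e1, e2, e3⟩ := outer_profile h5 hn hp hpn hom hlam hY hr1def hr1'
    hbdef hT hDl (hYlam lam hlam) hint
  -- parameters
  obtain ⟨σ, hσ, hσε⟩ := exists_sigma hp0 hε
  set V := om n / n with hV
  have hV0 : 0 < V := by positivity
  set η := ε * (b / 2) ^ n / 2 with hη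
  have hη0 : 0 < η := by positivity
  have hd1' : 0 < lam ^ (n - p) * d₁ := hDl.pos
  have hd2' : 0 ≤ lam ^ (n - p) * d₂ := by
    have e1 := hDl.lower 1 one_pos
    have e2 := hDl.upper 1 one_pos
    have e3 := e1.trans e2
    simp only [one_pow, mul_one] at e3
    by_contra hcon
    rw [ENNReal.ofReal_of_nonpos (not_le.1 hcon).le, nonpos_iff_eq_zero,
      ENNReal.ofReal_eq_zero] at e3
    linarith
  obtain ⟨g₀, hg₀, hg₀'⟩ := exists_small (k := 1 + ε) (d := n - p) (η := η / 2) (by linarith) hd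
    (by positivity)
  obtain ⟨w, hw, hw'⟩ := exists_small (k := lam ^ (n - p) * d₂ + 1) (d := p) (η := η * V / 2)
    (by linarith) hp0 (by positivity)
  set g := min g₀ (min (b / 4) (lam * min δ (1 / 2))) with hg
  have hg0 : 0 < g := by
    have : 0 < min δ (1 / 2) := lt_min hδ (by norm_num)
    exact lt_min hg₀ (lt_min (by linarith) (by positivity))
  have hgg₀ : g ≤ g₀ := min_le_left _ _
  have hgb : g ≤ b / 4 := (min_le_right _ _).trans (min_le_left _ _)
  have hgl : g ≤ lam * min δ (1 / 2) := (min_le_right _ _).trans (min_le_right _ _)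
  have hgl1 : g / lam ≤ min δ (1 / 2) := by
    rw [div_le_iff₀ hlam, mul_comm]; exact hgl
  have hδ₁a : g / lam ≤ δ := hgl1.trans (min_le_left _ _)
  have hδ₁b : g / lam ≤ 1 / 2 := hgl1.trans (min_le_right _ _)
  have hg1 : g < 1 := by linarith
  have hg1' := hg₀' g hg0.le hgg₀
  set b' := b - min (b / 4) (w / 2) with hb'
  have hb'b : b' < b := by
    have : 0 < min (b / 4) (w / 2) := lt_min (by linarith) (by linarith)
    linarith
  have hb'2 : 3 * b / 4 ≤ b' := by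
    have : min (b / 4) (w / 2) ≤ b / 4 := min_le_left _ _
    linarith
  have hb'3 : 2 * (b - b') ≤ w := by
    have : min (b / 4) (w / 2) ≤ w / 2 := min_le_right _ _
    linarith
  have hb'0 : 0 < b' := by linarith
  have hgb' : g < b' := by linarith
  obtain ⟨a, ha, hag, ha1, ha2⟩ := exists_a hσ hg0 hgb'
  have hagl : a / lam < g / lam := by gcongr
  have hpr : a * (lam * (g / lam) / a) ^ (1 + σ) = b' := by
    have : lam * (g / lam) / a = g / a := by field_simp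
    rw [this, ha1]
  obtain ⟨h, ch, Ch, hch, hh, hlow, hpow, hlin, hout⟩ := profile ha hlam hσ hagl
    (by linarith : g / lam < 1) hT hpr hb'b hc' e0 e2
  set K := (b - b') / (1 - g / lam) with hK
  have hK0 : 0 ≤ K := div_nonneg (by linarith) (by linarith)
  have hKw : K ≤ w := ax2 hδ₁b hw hb'3
  have hJ : lam ^ (n - p) * d₂ * K ^ p ≤ η * V / 2 := by
    have h9 := hw' K hK0 hKw
    have h10 : 0 ≤ K ^ p := by positivity
    exact ax3 h10 h9
  -- the star function at special points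
  have hnorm : ∀ y : E n, ‖lam⁻¹ • y‖ = ‖y‖ / lam := by
    intro y
    rw [norm_smul, Real.norm_of_nonneg (by positivity), div_eq_inv_mul]
  have hNg : ∀ y, ‖y‖ ≤ g → Nl y = ‖y‖ / lam := by
    intro y hy
    have h9 : ‖lam⁻¹ • y‖ ≤ δ := by
      rw [hnorm]
      have : ‖y‖ / lam ≤ g / lam := by gcongr
      linarith
    show N (lam⁻¹ • y) = _
    rw [hNδ _ h9, hnorm]
  have hN1 : ∀ y, ‖y‖ = 1 → Nl y = T := by
    intro y hy
    have h9 : ‖lam⁻¹ • y‖ = M := by rw [hnorm, hy, one_div, hlamM]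
    show N (lam⁻¹ • y) = _
    rw [hNM _ h9.ge, h9]
  have hNle : Nl (lam • e) = 1 := by
    have h9 := hNe 1 ⟨zero_le_one, le_rfl⟩
    show N (lam⁻¹ • lam • e) = 1
    rw [smul_smul, inv_mul_cancel₀ hlam.ne']
    exact h9
  obtain ⟨en1, en2⟩ := energies h2 h4 hn hp hpn hNl hDl hlam ha hσ hσε hag hg1 rfl
    (by linarith : g / lam < 1) ha1 ha2 hb'b hK rfl hr1 hNg hN1 hch hh hpow hlin
    hout e3
  -- the energy bound
  have hbp : b' ^ p ≤ 1 := Real.rpow_le_one hb'0.le (by linarith) hp0.le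
  have hs' : (1 + ε) * (V * (b' ^ p * g ^ (n - p))) + lam ^ (n - p) * d₂ * K ^ p ≤ η * V := by
    have h9 : (1 + ε) * (V * (b' ^ p * g ^ (n - p))) ≤ V * (η / 2) := by
      have h10 : 0 ≤ g ^ (n - p) := by positivity
      calc (1 + ε) * (V * (b' ^ p * g ^ (n - p))) = V * (b' ^ p * ((1 + ε) * g ^ (n - p))) := by
            ring
        _ ≤ V * (1 * ((1 + ε) * g ^ (n - p))) := by gcongr
        _ ≤ V * (η / 2) := by rw [one_mul]; gcongr
    linarith
  have hs'0 : 0 ≤ (1 + ε) * (V * (b' ^ p * g ^ (n - p))) := by positivity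
  have hs'1 : 0 ≤ lam ^ (n - p) * d₂ * K ^ p := by positivity
  have hεa : (1 + ε) * a ^ n ≤ η := by
    have h9 : a ^ n ≤ g ^ (n - p) := by
      calc a ^ n ≤ g ^ n := pow_le_pow_left₀ ha.le hag.le n
        _ = g ^ (n : ℝ) := (Real.rpow_natCast g n).symm
        _ ≤ g ^ (n - p) := Real.rpow_le_rpow_of_exponent_ge hg0 hg1.le (by linarith)
    exact ax4 hε h9 hη0 hg1'
  have hSb : ∀ r, r ≤ 1 →
      ∫⁻ y in {y | a < ‖y‖ ∧ ‖y‖ < 1 ∧ h (Nl y) < r}, ‖fderiv ℝ (fun z => h (Nl z)) y‖ₑ ^ p ≤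
        ENNReal.ofReal (η * V) + ∫⁻ s in Ioo b r, ENNReal.ofReal (om n * max s r1 ^ (n - 1)) := by
    intro r hr
    refine (en2 r hr).trans ?_
    gcongr
    rw [← ENNReal.ofReal_add hs'0 hs'1]
    exact ENNReal.ofReal_le_ofReal hs'
  have hSb1 : ∀ r, r ≤ b →
      ∫⁻ y in {y | a < ‖y‖ ∧ ‖y‖ < 1 ∧ h (Nl y) < r}, ‖fderiv ℝ (fun z => h (Nl z)) y‖ₑ ^ p ≤
        ENNReal.ofReal (η * V) := by
    intro r hr
    have h9 := hSb r (by linarith)
    rw [Ioo_eq_empty (not_lt.2 hr)] at h9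
    simpa using h9
  have hSb2 : ∀ r, b ≤ r → r ≤ 1 →
      ∫⁻ y in {y | a < ‖y‖ ∧ ‖y‖ < 1 ∧ h (Nl y) < r}, ‖fderiv ℝ (fun z => h (Nl z)) y‖ₑ ^ p ≤
        ENNReal.ofReal (η * V + V * r ^ n) := by
    intro r hbr hr
    have h9 := outer_bound n b r r1 hn hr1 hbdef hbr
    have h10 := (hSb r hr).trans (add_le_add le_rfl h9)
    have hr0 : 0 < r := by linarith
    rwa [← ENNReal.ofReal_add (by positivity) (by positivity)] at h10
  have hbn : (b / 2) ^ n ≤ 1 := pow_le_one₀ (by linarith) (by linarith)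
  have hbn0 : 0 < (b / 2) ^ n := by positivity
  have hη1 : η ≤ ε / 2 := ax5 hε hbn
  have hη2 : 2 * η ≤ (b / 2) ^ n := ax6 hε1 hbn0
  have hmono : ∀ s t, s ≤ t → ch * (t - s) ≤ h t - h s := fun s t hst =>
    (hh s (mem_univ _) t (mem_univ _) hst).1
  have hTh : h T = 1 := by rw [hout T ⟨hT.le, le_rfl⟩, e1]
  have hab : a < b' := by linarith
  have hlamb : a < lam := by
    have : a / lam < 1 := by linarith
    rwa [div_lt_one hlam] at this
  have hc0 : 0 < ch * (c₀ / lam) := mul_pos hch hNl.cpos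
  have hslope : ∀ y : E n, ∀ t ∈ Icc (0 : ℝ) 1,
      ch * (c₀ / lam) * (1 - t) * ‖y‖ ≤ h (Nl y) - h (Nl (t • y)) := by
    intro y t ht
    have h9 := hNl.slope y t ht
    have h9' : c₀ / lam * (1 - t) * ‖y‖ ≤ Nl y - Nl (t • y) := h9
    have h10 : 0 ≤ c₀ / lam * (1 - t) * ‖y‖ := by
      have := hNl.cpos.le
      have : 0 ≤ 1 - t := by linarith [ht.2]
      positivity
    have h11 := hmono (Nl (t • y)) (Nl y) (by linarith)
    rw [mul_assoc]
    refine ax7 hch ?_ h11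
    rw [← mul_assoc]
    exact h9'
  have hLip : ∀ y z : E n, |h (Nl y) - h (Nl z)| ≤
      (Real.toNNReal Ch : ℝ) * (l₀ / lam) * ‖y - z‖ := by
    intro y z
    have h9 := (hh.lip hch.le).dist_le_mul (Nl y) (Nl z)
    rw [Real.dist_eq, Real.dist_eq] at h9
    have h10 : |Nl y - Nl z| ≤ l₀ / lam * ‖y - z‖ := hNl.lip y z
    calc |h (Nl y) - h (Nl z)| ≤ (Real.toNNReal Ch : ℝ) * |Nl y - Nl z| := h9
      _ ≤ (Real.toNNReal Ch : ℝ) * (l₀ / lam * ‖y - z‖) := by gcongr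
      _ = _ := by ring
  refine ⟨a, b, lam, min 1 (ch * (c₀ / lam)), max 1 ((Real.toNNReal Ch : ℝ) * (l₀ / lam)), e,
    fun y => h (Nl y), ha, by linarith, hb1, hlamb, hlam1, lt_min one_pos hc0, min_le_left _ _,
    le_max_left _ _, he, ?_, ?_, ?_, ?_, ?_, ?_, ?_, ?_⟩
  · intro y z
    refine (hLip y z).trans ?_
    gcongr
    exact le_max_right _ _
  · intro y _ t ht _
    refine le_trans ?_ (hslope y t ht)
    have h9 : 0 ≤ (1 - t) * ‖y‖ := mul_nonneg (by linarith [ht.2]) (norm_nonneg _)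
    have h10 : min 1 (ch * (c₀ / lam)) ≤ ch * (c₀ / lam) := min_le_right _ _
    have h11 := mul_le_mul_of_nonneg_right h10 h9
    rw [← mul_assoc, ← mul_assoc] at h11
    exact h11
  · intro y hy
    show h (Nl y) = 1
    rw [hN1 y hy, hTh]
  · intro y hy
    show h (Nl y) = a
    rw [hNg y (by linarith), hy, hlow (a / lam) le_rfl]
    field_simp
  · show h (Nl (lam • e)) = b
    rw [hNle, hout 1 ⟨le_rfl, hT.le⟩, e0]
  · unfold C3
    rw [hC3]
    apply le_of_eq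
    congr 1
    have : (0 : ℝ) < n - 1 := by linarith
    rw [hbdef, hr1def]
    field_simp
  · have h9 := hSb2 1 hb1.le le_rfl
    have h10 : {y : E n | a < ‖y‖ ∧ ‖y‖ < 1} ⊆ {y | a < ‖y‖ ∧ ‖y‖ < 1 ∧ h (Nl y) < 1} := by
      rintro y ⟨hy1, hy2⟩
      refine ⟨hy1, hy2, ?_⟩
      have h11 := star_lt hNl hN1 y (ha.trans hy1) hy2
      have h12 := hmono (Nl y) T h11.le
      have h13 : 0 < ch * (T - Nl y) := mul_pos hch (by linarith)
      linarith
    refine (lintegral_mono_set h10).trans (h9.trans (ENNReal.ofReal_le_ofReal ?_))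
    rw [one_pow]
    have h11 : η + 1 ≤ (1 + ε) * (1 - a ^ n) := by linarith
    have h12 := mul_le_mul_of_nonneg_left h11 hV0.le
    linarith
  · intro r har hr1
    have hr0 : 0 < r := by linarith
    have hrn : 0 < r ^ n := by positivity
    show ENNReal.ofReal ((1 + ε) * (V * a ^ n)) +
      ∫⁻ y in {y | a < ‖y‖ ∧ ‖y‖ < 1 ∧ h (Nl y) < r}, ‖fderiv ℝ (fun z => h (Nl z)) y‖ₑ ^ p ≤
      ENNReal.ofReal ((1 + ε) ^ 2 * (V * r ^ n))
    rcases le_total r b' with h9 | h9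
    · refine (add_le_add le_rfl (en1 r har h9)).trans ?_
      have h10 : a ^ n ≤ r ^ n := pow_le_pow_left₀ ha.le har n
      rw [← ENNReal.ofReal_add (by positivity)
        (mul_nonneg (by linarith) (mul_nonneg hV0.le (by linarith)))]
      apply ENNReal.ofReal_le_ofReal
      have h11 : 0 < V * r ^ n := by positivity
      have h12 : 1 + ε ≤ (1 + ε) ^ 2 := le_self_pow₀ (by linarith) two_ne_zero
      calc (1 + ε) * (V * a ^ n) + (1 + ε) * (V * (r ^ n - a ^ n)) = (1 + ε) * (V * r ^ n) := by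
            ring
        _ ≤ (1 + ε) ^ 2 * (V * r ^ n) := mul_le_mul_of_nonneg_right h12 h11.le
    · have h14 : 0 < V * r ^ n := by positivity
      have h16 : (b / 2) ^ n ≤ r ^ n := pow_le_pow_left₀ (by linarith) (by linarith) n
      rcases le_total r b with h10 | h10
      · refine (add_le_add le_rfl (hSb1 r h10)).trans ?_
        rw [← ENNReal.ofReal_add (by positivity) (by positivity)]
        apply ENNReal.ofReal_le_ofReal
        have h12 : (1 + ε) * a ^ n + η ≤ r ^ n := by linarith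
        have h13 := mul_le_mul_of_nonneg_left h12 hV0.le
        have h15 : 1 ≤ (1 + ε) ^ 2 := one_le_pow₀ (by linarith)
        calc (1 + ε) * (V * a ^ n) + η * V = V * ((1 + ε) * a ^ n + η) := by ring
          _ ≤ V * r ^ n := h13
          _ ≤ (1 + ε) ^ 2 * (V * r ^ n) := le_mul_of_one_le_left h14.le h15
      · refine (add_le_add le_rfl (hSb2 r h10 hr1)).trans ?_
        rw [← ENNReal.ofReal_add (by positivity) (by positivity)]
        apply ENNReal.ofReal_le_ofReal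
        have h12 : (1 + ε) * a ^ n + η ≤ ε * r ^ n := by
          have h15 : 2 * η ≤ ε * r ^ n := by
            have h17 : 2 * η = ε * (b / 2) ^ n := by rw [hη]; ring
            rw [h17]
            exact mul_le_mul_of_nonneg_left h16 hε.le
          linarith
        have h13 := mul_le_mul_of_nonneg_left h12 hV0.le
        have h15 : 1 + ε ≤ (1 + ε) ^ 2 := le_self_pow₀ (by linarith) two_ne_zero
        calc (1 + ε) * (V * a ^ n) + (η * V + V * r ^ n) =
            V * ((1 + ε) * a ^ n + η) + V * r ^ n := by ring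
          _ ≤ V * (ε * r ^ n) + V * r ^ n := by linarith
          _ = (1 + ε) * (V * r ^ n) := by ring
          _ ≤ (1 + ε) ^ 2 * (V * r ^ n) := mul_le_mul_of_nonneg_right h15 h14.le

end Pool.Agent.Helper73.RQ
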