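import Pool.Agent.Helper12.RQ.Polar

/-!
# Packet BLK: real-variable lemmas
-/

set_option autoImplicit false

open MeasureTheory Set Filter Topology Metric

open scoped ENNReal NNReal ContDiff

namespace Pool.Agent.Helper73.RQ

open Pool.Agent.Helper12.RQ

/-! ## Functions with bounded slopes -/

/-- the slopes of `f` on `S` are between `c` and `C` -/
def Sl (c C : ℝ) (f : ℝ → ℝ) (S : Set ℝ) : Prop :=
  ∀ s ∈ S, ∀ t ∈ S, s ≤ t → c * (t - s) ≤ f t - f s ∧ f t - f s ≤ C * (t - s)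

theorem Sl.mono {c C c' C' : ℝ} {f : ℝ → ℝ} {S S' : Set ℝ} (h : Sl c C f S) (hc : c' ≤ c)
    (hC : C ≤ C') (hS : S' ⊆ S) : Sl c' C' f S' := by
  intro s hs t ht hst
  obtain ⟨h1, h2⟩ := h s (hS hs) t (hS ht) hst
  have h3 : 0 ≤ t - s := by linarith
  constructor
  · exact le_trans (mul_le_mul_of_nonneg_right hc h3) h1
  · exact le_trans h2 (mul_le_mul_of_nonneg_right hC h3)

theorem Sl.congr {c C : ℝ} {f g : ℝ → ℝ} {S : Set ℝ} (h : Sl c C f S) (hfg : ∀ t ∈ S, f t = g t) :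
    Sl c C g S := by
  intro s hs t ht hst
  rw [← hfg s hs, ← hfg t ht]
  exact h s hs t ht hst

theorem Sl.glue {c C x : ℝ} {f g : ℝ → ℝ} {S : Set ℝ} (hf : Sl c C f (S ∩ Iic x))
    (hg : Sl c C g (S ∩ Ici x)) (hx : x ∈ S) (h : f x = g x) :
    Sl c C (fun t => if t ≤ x then f t else g t) S := by
  intro s hs t ht hst
  by_cases h1 : t ≤ x
  · have h2 : s ≤ x := hst.trans h1
    simp only [h1, h2, if_true]
    exact hf s ⟨hs, h2⟩ t ⟨ht, h1⟩ hst
  · have h1' : x ≤ t := (not_le.1 h1).le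
    by_cases h2 : s ≤ x
    · simp only [h1, h2, if_true, if_false]
      obtain ⟨a1, a2⟩ := hf s ⟨hs, h2⟩ x ⟨hx, self_mem_Iic⟩ h2
      obtain ⟨b1, b2⟩ := hg x ⟨hx, self_mem_Ici⟩ t ⟨ht, h1'⟩ h1'
      constructor <;> nlinarith
    · simp only [h1, h2, if_false]
      exact hg s ⟨hs, (not_le.1 h2).le⟩ t ⟨ht, h1'⟩ hst

theorem Sl.lip {c C : ℝ} {f : ℝ → ℝ} (h : Sl c C f univ) (hc : 0 ≤ c) :
    LipschitzWith (Real.toNNReal C) f := by
  refine LipschitzWith.of_dist_le_mul fun x y => ?_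
  have key : ∀ s t : ℝ, s ≤ t → |f t - f s| ≤ C * |t - s| := by
    intro s t hst
    obtain ⟨h1, h2⟩ := h s (mem_univ _) t (mem_univ _) hst
    have h3 : 0 ≤ t - s := by linarith
    rw [abs_of_nonneg h3, abs_of_nonneg]
    · exact h2
    · exact le_trans (mul_nonneg hc h3) h1
  have hC : 0 ≤ C := by
    obtain ⟨h1, h2⟩ := h 0 (mem_univ _) 1 (mem_univ _) zero_le_one
    linarith
  rw [Real.coe_toNNReal _ hC, Real.dist_eq, Real.dist_eq]
  rcases le_total x y with h1 | h1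
  · rw [abs_sub_comm, abs_sub_comm x y]; exact key _ _ h1
  · exact key _ _ h1

theorem Sl.of_linear (k d : ℝ) (S : Set ℝ) : Sl k k (fun t => d + k * t) S := by
  intro s _ t _ _
  constructor <;> (apply le_of_eq; ring)

/-- slopes of the power function -/
theorem pow_slope {σ Y : ℝ} (hσ : 0 < σ) :
    Sl (1 + σ) ((1 + σ) * Y ^ σ) (fun z => z ^ (1 + σ)) (Icc 1 Y) := by
  have hd : ∀ z ∈ Icc 1 Y, HasDerivAt (fun z : ℝ => z ^ (1 + σ)) ((1 + σ) * z ^ σ) z := by
    intro z hz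
    have hz0 : z ≠ 0 := by linarith [hz.1]
    have h1 := Real.hasDerivAt_rpow_const (x := z) (p := 1 + σ) (Or.inl hz0)
    have h2 : 1 + σ - 1 = σ := by ring
    rw [h2] at h1
    exact h1
  have hc : ContinuousOn (fun z : ℝ => z ^ (1 + σ)) (Icc 1 Y) := fun z hz =>
    (hd z hz).continuousAt.continuousWithinAt
  have hdi : DifferentiableOn ℝ (fun z : ℝ => z ^ (1 + σ)) (interior (Icc 1 Y)) := fun z hz =>
    (hd z (interior_subset hz)).differentiableAt.differentiableWithinAt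
  intro x hx y hy hxy
  constructor
  · refine Convex.mul_sub_le_image_sub_of_le_deriv (convex_Icc 1 Y) hc hdi ?_ x hx y hy hxy
    intro z hz
    have hz' := interior_subset hz
    rw [(hd z hz').deriv]
    have h3 : (1 : ℝ) ≤ z ^ σ := Real.one_le_rpow hz'.1 hσ.le
    nlinarith
  · refine Convex.image_sub_le_mul_sub_of_deriv_le (convex_Icc 1 Y) hc hdi ?_ x hx y hy hxy
    intro z hz
    have hz' := interior_subset hz
    rw [(hd z hz').deriv]
    have h3 : z ^ σ ≤ Y ^ σ := Real.rpow_le_rpow (by linarith [hz'.1]) hz'.2 hσ.le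
    have h4 : 0 < 1 + σ := by linarith
    exact mul_le_mul_of_nonneg_left h3 h4.le

theorem Sl.pow {a lam σ Y : ℝ} (ha : 0 < a) (hlam : 0 < lam) (hσ : 0 < σ) :
    Sl (lam * (1 + σ)) (lam * ((1 + σ) * Y ^ σ)) (fun t => a * (lam * t / a) ^ (1 + σ))
      (Icc (a / lam) (Y * a / lam)) := by
  intro s hs t ht hst
  have e : ∀ u ∈ Icc (a / lam) (Y * a / lam), lam * u / a ∈ Icc 1 Y := by
    intro u hu
    constructor
    · rw [le_div_iff₀ ha, one_mul, mul_comm]
      exact (div_le_iff₀ hlam).1 hu.1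
    · rw [div_le_iff₀ ha, mul_comm]
      exact (le_div_iff₀ hlam).1 hu.2
  have hle : lam * s / a ≤ lam * t / a := by gcongr
  obtain ⟨h1, h2⟩ := pow_slope (Y := Y) hσ _ (e s hs) _ (e t ht) hle
  have e1 : lam * t / a - lam * s / a = lam / a * (t - s) := by ring
  rw [e1] at h1 h2
  have e2 : ∀ k : ℝ, a * (k * (lam / a * (t - s))) = lam * k * (t - s) := by
    intro k
    field_simp
  constructor
  · calc lam * (1 + σ) * (t - s) = a * ((1 + σ) * (lam / a * (t - s))) := (e2 _).symm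
      _ ≤ a * ((lam * t / a) ^ (1 + σ) - (lam * s / a) ^ (1 + σ)) :=
        mul_le_mul_of_nonneg_left h1 ha.le
      _ = _ := by ring
  · calc a * (lam * t / a) ^ (1 + σ) - a * (lam * s / a) ^ (1 + σ) =
        a * ((lam * t / a) ^ (1 + σ) - (lam * s / a) ^ (1 + σ)) := by ring
      _ ≤ a * ((1 + σ) * Y ^ σ * (lam / a * (t - s))) := mul_le_mul_of_nonneg_left h2 ha.le
      _ = _ := e2 _

/-- the profile -/
theorem profile {a lam σ δ₁ b' b T c' C' : ℝ} {h₁ : ℝ → ℝ} (ha : 0 < a) (hlam : 0 < lam)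
    (hσ : 0 < σ) (haδ : a / lam < δ₁) (hδ : δ₁ < 1) (hT : 1 < T)
    (hb' : a * (lam * δ₁ / a) ^ (1 + σ) = b') (hbb : b' < b) (hc' : 0 < c')
    (h1 : h₁ 1 = b) (hh₁ : Sl c' C' h₁ (Icc 1 T)) :
    ∃ (h : ℝ → ℝ) (c C : ℝ), 0 < c ∧ Sl c C h univ ∧
      (∀ t, t ≤ a / lam → h t = lam * t) ∧
      (∀ t ∈ Icc (a / lam) δ₁, h t = a * (lam * t / a) ^ (1 + σ)) ∧
      (∀ t ∈ Icc δ₁ 1, h t = b' + (b - b') / (1 - δ₁) * (t - δ₁)) ∧
      (∀ t ∈ Icc 1 T, h t = h₁ t) := by
  have hY : lam * δ₁ / a * a / lam = δ₁ := by field_simp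
  have hp := Sl.pow (Y := lam * δ₁ / a) ha hlam hσ
  rw [hY] at hp
  set K := (b - b') / (1 - δ₁) with hK
  have hKpos : 0 < K := div_pos (by linarith) (by linarith)
  set c := min (min lam (lam * (1 + σ))) (min K (min c' 1)) with hcdef
  set C := max (max lam (lam * ((1 + σ) * (lam * δ₁ / a) ^ σ))) (max K (max C' 1)) with hCdef
  have hc : 0 < c := by
    have : 0 < lam * (1 + σ) := by positivity
    simp only [hcdef, lt_min_iff]
    exact ⟨⟨hlam, this⟩, hKpos, hc', one_pos⟩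
  have i1 : c ≤ lam := (min_le_left _ _).trans (min_le_left _ _)
  have i2 : c ≤ lam * (1 + σ) := (min_le_left _ _).trans (min_le_right _ _)
  have i3 : c ≤ K := (min_le_right _ _).trans (min_le_left _ _)
  have i4 : c ≤ c' := (min_le_right _ _).trans ((min_le_right _ _).trans (min_le_left _ _))
  have i5 : c ≤ 1 := (min_le_right _ _).trans ((min_le_right _ _).trans (min_le_right _ _))
  have j1 : lam ≤ C := (le_max_left _ _).trans (le_max_left _ _)
  have j2 : lam * ((1 + σ) * (lam * δ₁ / a) ^ σ) ≤ C := (le_max_right _ _).trans (le_max_left _ _)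
  have j3 : K ≤ C := (le_max_left _ _).trans (le_max_right _ _)
  have j4 : C' ≤ C := (le_max_left _ _).trans ((le_max_right _ _).trans (le_max_right _ _))
  have j5 : 1 ≤ C := (le_max_right _ _).trans ((le_max_right _ _).trans (le_max_right _ _))
  let f₅ : ℝ → ℝ := fun t => (h₁ T - T) + 1 * t
  let f₄ : ℝ → ℝ := fun t => if t ≤ T then h₁ t else f₅ t
  let f₃ : ℝ → ℝ := fun t => if t ≤ 1 then (b' - K * δ₁) + K * t else f₄ t
  let f₂ : ℝ → ℝ := fun t => if t ≤ δ₁ then a * (lam * t / a) ^ (1 + σ) else f₃ t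
  let f₁ : ℝ → ℝ := fun t => if t ≤ a / lam then 0 + lam * t else f₂ t
  have s4 : Sl c C f₄ (Ici 1) := by
    refine Sl.glue (hh₁.mono i4 j4 ?_) ((Sl.of_linear 1 _ _).mono i5 j5 (subset_univ _))
      hT.le ?_
    · intro t ht; exact ⟨ht.1, ht.2⟩
    · show h₁ T = (h₁ T - T) + 1 * T
      ring
  have e41 : f₄ 1 = b := by
    show (if (1 : ℝ) ≤ T then h₁ 1 else f₅ 1) = b
    rw [if_pos hT.le, h1]
  have s3 : Sl c C f₃ (Ici δ₁) := by
    refine Sl.glue ((Sl.of_linear K _ univ).mono i3 j3 (subset_univ _))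
      (s4.mono le_rfl le_rfl ?_) hδ.le ?_
    · intro t ht; exact ht.2
    · rw [e41]
      show b' - K * δ₁ + K * 1 = b
      have : K * (1 - δ₁) = b - b' := by
        rw [hK]; exact div_mul_cancel₀ _ (by linarith)
      linarith
  have e3δ : f₃ δ₁ = b' := by
    show (if δ₁ ≤ 1 then (b' - K * δ₁) + K * δ₁ else f₄ δ₁) = b'
    rw [if_pos hδ.le]; ring
  have s2 : Sl c C f₂ (Ici (a / lam)) := by
    refine Sl.glue (hp.mono i2 j2 ?_) (s3.mono le_rfl le_rfl ?_) haδ.le ?_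
    · intro t ht; exact ⟨ht.1, ht.2⟩
    · intro t ht; exact ht.2
    · rw [e3δ, hb']
  have e2a : f₂ (a / lam) = a := by
    show (if a / lam ≤ δ₁ then a * (lam * (a / lam) / a) ^ (1 + σ) else f₃ (a / lam)) = a
    rw [if_pos haδ.le]
    have : lam * (a / lam) / a = 1 := by field_simp
    rw [this, Real.one_rpow, mul_one]
  have s1 : Sl c C f₁ univ := by
    refine Sl.glue ((Sl.of_linear lam _ univ).mono i1 j1 (subset_univ _))
      (s2.mono le_rfl le_rfl ?_) (mem_univ _) ?_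
    · intro t ht; exact ht.2
    · rw [e2a]
      show 0 + lam * (a / lam) = a
      field_simp
      ring
  have k2 : ∀ t, a / lam ≤ t → f₁ t = f₂ t := by
    intro t ht
    rcases ht.eq_or_lt with h2 | h2
    · rw [← h2, e2a]
      show (if a / lam ≤ a / lam then 0 + lam * (a / lam) else f₂ (a / lam)) = a
      rw [if_pos le_rfl]
      field_simp
      ring
    · show (if t ≤ a / lam then 0 + lam * t else f₂ t) = f₂ t
      rw [if_neg (not_le.2 h2)]
  have k3 : ∀ t, δ₁ ≤ t → f₂ t = f₃ t := by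
    intro t ht
    rcases ht.eq_or_lt with h2 | h2
    · rw [← h2, e3δ]
      show (if δ₁ ≤ δ₁ then a * (lam * δ₁ / a) ^ (1 + σ) else f₃ δ₁) = b'
      rw [if_pos le_rfl, hb']
    · show (if t ≤ δ₁ then a * (lam * t / a) ^ (1 + σ) else f₃ t) = f₃ t
      rw [if_neg (not_le.2 h2)]
  have k4 : ∀ t, 1 ≤ t → f₃ t = f₄ t := by
    intro t ht
    rcases ht.eq_or_lt with h2 | h2
    · rw [← h2, e41]
      show (if (1 : ℝ) ≤ 1 then (b' - K * δ₁) + K * 1 else f₄ 1) = b
      rw [if_pos le_rfl]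
      have : K * (1 - δ₁) = b - b' := by
        rw [hK]; exact div_mul_cancel₀ _ (by linarith)
      linarith
    · show (if t ≤ 1 then (b' - K * δ₁) + K * t else f₄ t) = f₄ t
      rw [if_neg (not_le.2 h2)]
  refine ⟨f₁, c, C, hc, s1, ?_, ?_, ?_, ?_⟩
  · intro t ht
    show (if t ≤ a / lam then 0 + lam * t else f₂ t) = lam * t
    rw [if_pos ht, zero_add]
  · intro t ht
    rw [k2 t ht.1]
    show (if t ≤ δ₁ then a * (lam * t / a) ^ (1 + σ) else f₃ t) = _
    rw [if_pos ht.2]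
  · intro t ht
    rw [k2 t (haδ.le.trans ht.1), k3 t ht.1]
    show (if t ≤ 1 then (b' - K * δ₁) + K * t else f₄ t) = _
    rw [if_pos ht.2]
    ring
  · intro t ht
    rw [k2 t (haδ.le.trans (hδ.le.trans ht.1)), k3 t (hδ.le.trans ht.1), k4 t ht.1]
    show (if t ≤ T then h₁ t else f₅ t) = _
    rw [if_pos ht.2]

end Pool.Agent.Helper73.RQ
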