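import Pool.Agent.Helper73.RQ.BLK0

/-!
# Packet BLK: integrals
-/

set_option autoImplicit false

open MeasureTheory Set Filter Topology Metric

open scoped ENNReal NNReal ContDiff

namespace Pool.Agent.Helper73.RQ

open Pool.Agent.Helper12.RQ

theorem lint_deriv {F F' : ℝ → ℝ} {a g : ℝ} (h : a ≤ g) (hF : ∀ s ∈ Icc a g, HasDerivAt F (F' s) s)
    (hc : ContinuousOn F' (Icc a g)) (hn : ∀ s ∈ Icc a g, 0 ≤ F' s) :
    ∫⁻ s in Ioo a g, ENNReal.ofReal (F' s) = ENNReal.ofReal (F g - F a) := by
  have hu : uIcc a g = Icc a g := uIcc_of_le h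
  have hi : IntervalIntegrable F' volume a g := by
    apply ContinuousOn.intervalIntegrable
    rw [hu]; exact hc
  have h1 := intervalIntegral.integral_eq_sub_of_hasDerivAt (f := F) (f' := F') (a := a) (b := g)
    (by rw [hu]; exact hF) hi
  rw [← h1, intervalIntegral.integral_of_le h, integral_Ioc_eq_integral_Ioo]
  rw [ofReal_integral_eq_lintegral_ofReal]
  · exact ((intervalIntegrable_iff_integrableOn_Ioo_of_le h).1 hi)
  · refine (ae_restrict_iff' measurableSet_Ioo).2 (ae_of_all _ fun s hs => ?_)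
    exact hn s ⟨hs.1.le, hs.2.le⟩

theorem inner_bound (n : ℕ) (p σ a g ε : ℝ) (hn : 2 ≤ n) (hp : 0 ≤ p) (hpn : p ≤ n) (hσ : 0 < σ)
    (ha : 0 < a) (hg : a ≤ g) (hε : (1 + σ) ^ p ≤ 1 + ε) :
    ENNReal.ofReal (om n) * ∫⁻ s in Ioo a g,
      ENNReal.ofReal ((1 + σ) * (s / a) ^ σ) ^ p * ENNReal.ofReal (s ^ (n - 1)) ≤
    ENNReal.ofReal ((1 + ε) * (om n / n * ((a * (g / a) ^ (1 + σ)) ^ n - a ^ n))) := by
  have hn0 : (0 : ℝ) < n := by
    have : 0 < n := by omega
    exact_mod_cast this
  have hom : 0 < om n := om_pos n (by omega)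
  have h1σ : 0 < 1 + σ := by linarith
  have h1ε : 0 < 1 + ε := lt_of_lt_of_le (Real.rpow_pos_of_pos h1σ p) hε
  set F : ℝ → ℝ := fun s => a ^ n * (s / a) ^ ((1 + σ) * n) with hF
  set F' : ℝ → ℝ := fun s => n * (1 + σ) * ((s / a) ^ (σ * n) * s ^ (n - 1)) with hF'
  have hpos : ∀ s ∈ Icc a g, 0 < s := fun s hs => lt_of_lt_of_le ha hs.1
  have hd : ∀ s ∈ Icc a g, HasDerivAt F (F' s) s := by
    intro s hs
    have hs0 := hpos s hs
    have hsa : 0 < s / a := div_pos hs0 ha
    have h1 : HasDerivAt (fun s : ℝ => s / a) (1 / a) s := (hasDerivAt_id s).div_const a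
    have h2 := (h1.rpow_const (p := (1 + σ) * n) (Or.inl hsa.ne')).const_mul (a ^ n)
    refine h2.congr_deriv ?_
    have e1 : (1 + σ) * n - 1 = σ * n + (n - 1 : ℕ) := by
      rw [Nat.cast_sub (by omega : 1 ≤ n)]; push_cast; ring
    rw [e1, Real.rpow_add hsa, Real.rpow_natCast, div_pow]
    have e2 : a ^ n = a ^ (n - 1) * a := by
      rw [← pow_succ]; congr 1; omega
    rw [e2]
    simp only [hF']
    field_simp
  have hc : ContinuousOn F' (Icc a g) := by
    intro s hs
    have hs0 := hpos s hs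
    have hsa : 0 < s / a := div_pos hs0 ha
    apply ContinuousAt.continuousWithinAt
    simp only [hF']
    apply ContinuousAt.mul continuousAt_const
    apply ContinuousAt.mul
    · apply ContinuousAt.rpow_const (continuousAt_id.div_const a)
      left; exact hsa.ne'
    · exact (continuous_pow _).continuousAt
  have hnn : ∀ s ∈ Icc a g, 0 ≤ F' s := by
    intro s hs
    have hs0 := hpos s hs
    simp only [hF']
    positivity
  have hmain := lint_deriv hg hd hc hnn
  have hFF : F g - F a = (a * (g / a) ^ (1 + σ)) ^ n - a ^ n := by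
    simp only [hF]
    have h1 : a / a = 1 := div_self ha.ne'
    have h2 : 0 ≤ g / a := div_nonneg (ha.le.trans hg) ha.le
    rw [h1, Real.one_rpow, mul_one, mul_pow, Real.rpow_mul h2, Real.rpow_natCast]
  rw [← hFF]
  calc ENNReal.ofReal (om n) * ∫⁻ s in Ioo a g,
        ENNReal.ofReal ((1 + σ) * (s / a) ^ σ) ^ p * ENNReal.ofReal (s ^ (n - 1))
      ≤ ENNReal.ofReal (om n) * ∫⁻ s in Ioo a g, ENNReal.ofReal ((1 + ε) / n) *
          ENNReal.ofReal (F' s) := by
        gcongr ENNReal.ofReal (om n) * ?_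
        refine setLIntegral_mono' measurableSet_Ioo fun s hs => ?_
        have hs0 : 0 < s := ha.trans hs.1
        have hsa : 1 ≤ s / a := (one_le_div ha).2 hs.1.le
        have hsa0 : 0 < s / a := by linarith
        rw [ENNReal.ofReal_rpow_of_nonneg (by positivity) hp, ← ENNReal.ofReal_mul (by positivity),
          ← ENNReal.ofReal_mul (by positivity)]
        apply ENNReal.ofReal_le_ofReal
        rw [Real.mul_rpow h1σ.le (by positivity), ← Real.rpow_mul hsa0.le]
        have e1 : (s / a) ^ (σ * p) ≤ (s / a) ^ (σ * n) :=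
          Real.rpow_le_rpow_of_exponent_le hsa (mul_le_mul_of_nonneg_left hpn hσ.le)
        have e2 : 0 ≤ s ^ (n - 1) := by positivity
        have e3 : 0 ≤ (s / a) ^ (σ * p) := by positivity
        have e4 : 0 ≤ (s / a) ^ (σ * n) := by positivity
        calc (1 + σ) ^ p * (s / a) ^ (σ * p) * s ^ (n - 1)
            ≤ (1 + ε) * (s / a) ^ (σ * n) * s ^ (n - 1) := by gcongr
          _ ≤ (1 + ε) * (s / a) ^ (σ * n) * s ^ (n - 1) * (1 + σ) := by
              have : 0 ≤ (1 + ε) * (s / a) ^ (σ * n) * s ^ (n - 1) := by positivity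
              nlinarith
          _ = (1 + ε) / n * F' s := by
              simp only [hF']
              field_simp
    _ = ENNReal.ofReal (om n) * (ENNReal.ofReal ((1 + ε) / n) * ENNReal.ofReal (F g - F a)) := by
        rw [lintegral_const_mul' _ _ ENNReal.ofReal_ne_top, hmain]
    _ = ENNReal.ofReal ((1 + ε) * (om n / n * (F g - F a))) := by
        rw [← ENNReal.ofReal_mul (by positivity), ← ENNReal.ofReal_mul hom.le]
        congr 1
        field_simp

theorem bern (n : ℕ) (hn : 1 ≤ n) (r r1 : ℝ) (hr : 0 ≤ r) (hr1 : 0 < r1) :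
    r1 ^ (n - 1) * (r - (n - 1) * r1 / n) ≤ r ^ n / n := by
  have hn0 : (0 : ℝ) < n := by exact_mod_cast hn
  have h1 := one_add_mul_le_pow (a := r / r1 - 1) (by
    have : 0 ≤ r / r1 := div_nonneg hr hr1.le
    linarith) n
  have h2 : 1 + (r / r1 - 1) = r / r1 := by ring
  rw [h2, div_pow] at h1
  have h3 : 0 < r1 ^ n := by positivity
  have h4 := mul_le_mul_of_nonneg_right h1 h3.le
  rw [div_mul_cancel₀ _ h3.ne'] at h4
  have e2 : r1 ^ n = r1 ^ (n - 1) * r1 := by
    rw [← pow_succ]; congr 1; omega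
  rw [le_div_iff₀ hn0]
  calc r1 ^ (n - 1) * (r - (n - 1) * r1 / n) * n = (1 + n * (r / r1 - 1)) * r1 ^ n := by
        rw [e2]; field_simp; ring
    _ ≤ r ^ n := h4

theorem outer_bound (n : ℕ) (b r r1 : ℝ) (hn : 2 ≤ n) (hr1 : 0 < r1) (hb : b = (n - 1) * r1 / n)
    (hr : b ≤ r) :
    ∫⁻ s in Ioo b r, ENNReal.ofReal (om n * max s r1 ^ (n - 1)) ≤
      ENNReal.ofReal (om n / n * r ^ n) := by
  have hn0 : (0 : ℝ) < n := by
    have : 0 < n := by omega
    exact_mod_cast this
  have hn1 : (1 : ℝ) ≤ n := by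
    have : 1 ≤ n := by omega
    exact_mod_cast this
  have hom : 0 < om n := om_pos n (by omega)
  have hb0 : 0 ≤ b := by rw [hb]; apply div_nonneg (mul_nonneg (by linarith) hr1.le) hn0.le
  have hr0 : 0 ≤ r := hb0.trans hr
  have hconst : ∀ r' : ℝ, b ≤ r' → r' ≤ r1 → ∫⁻ s in Ioc b r',
      ENNReal.ofReal (om n * max s r1 ^ (n - 1)) = ENNReal.ofReal (om n * r1 ^ (n - 1) * (r' - b)) := by
    intro r' hbr hr'
    have h1 : ∫⁻ s in Ioc b r', ENNReal.ofReal (om n * max s r1 ^ (n - 1)) =
        ∫⁻ s in Ioc b r', ENNReal.ofReal (om n * r1 ^ (n - 1)) := by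
      refine setLIntegral_congr_fun measurableSet_Ioc fun s hs => ?_
      rw [max_eq_right (hs.2.trans hr')]
    rw [h1, setLIntegral_const, Real.volume_Ioc, ← ENNReal.ofReal_mul (by positivity)]
  rcases le_total r r1 with h | h
  · refine le_trans (lintegral_mono_set Ioo_subset_Ioc_self) ?_
    rw [hconst r hr h]
    apply ENNReal.ofReal_le_ofReal
    have h1 := bern n (by omega) r r1 hr0 hr1
    rw [← hb] at h1
    calc om n * r1 ^ (n - 1) * (r - b) = om n * (r1 ^ (n - 1) * (r - b)) := by ring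
      _ ≤ om n * (r ^ n / n) := mul_le_mul_of_nonneg_left h1 hom.le
      _ = om n / n * r ^ n := by ring
  · have hbr1 : b ≤ r1 := by
      rw [hb, div_le_iff₀ hn0]; nlinarith
    have hsub : Ioo b r ⊆ Ioc b r1 ∪ Ioo r1 r := by
      intro s hs
      rcases le_or_gt s r1 with h1 | h1
      · exact Or.inl ⟨hs.1, h1⟩
      · exact Or.inr ⟨h1, hs.2⟩
    refine le_trans (lintegral_mono_set hsub) (le_trans (lintegral_union_le _ _ _) ?_)
    rw [hconst r1 hbr1 le_rfl]
    have h2 : ∫⁻ s in Ioo r1 r, ENNReal.ofReal (om n * max s r1 ^ (n - 1)) =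
        ENNReal.ofReal (om n / n * r ^ n - om n / n * r1 ^ n) := by
      rw [← lint_deriv (F := fun s => om n / n * s ^ n) (F' := fun s => om n * s ^ (n - 1)) h]
      · refine setLIntegral_congr_fun measurableSet_Ioo fun s hs => ?_
        rw [max_eq_left hs.1.le]
      · intro s _
        have h3 := (hasDerivAt_pow n s).const_mul (om n / n)
        refine h3.congr_deriv ?_
        field_simp
      · fun_prop
      · intro s hs
        have : 0 < s := lt_of_lt_of_le hr1 hs.1
        positivity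
    rw [h2, ← ENNReal.ofReal_add]
    · apply ENNReal.ofReal_le_ofReal
      have h1 : om n * r1 ^ (n - 1) * (r1 - b) = om n / n * r1 ^ n := by
        have e2 : r1 ^ n = r1 ^ (n - 1) * r1 := by
          rw [← pow_succ]; congr 1; omega
        rw [hb, e2]
        field_simp
        ring
      linarith
    · have : 0 ≤ r1 - b := by linarith
      positivity
    · have : r1 ^ n ≤ r ^ n := pow_le_pow_left₀ hr1.le h n
      have h3 : 0 ≤ om n / n := by positivity
      nlinarith

theorem theta_bound (n : ℕ) (m b r1 K : ℝ) (hn : 2 ≤ n) (hm : 0 < m) (hr1 : 0 < r1) (hr1' : r1 ≤ 1)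
    (hb : b = (n - 1) * r1 / n) (hK : 0 ≤ K) :
    ∫ s in b..1, K * max s r1 ^ (-(1 + m)) ≤ K * ((1 / n + 1 / m) * r1 ^ (-m)) := by
  have hn0 : (0 : ℝ) < n := by
    have : 0 < n := by omega
    exact_mod_cast this
  have hbr1 : b ≤ r1 := by
    rw [hb, div_le_iff₀ hn0]; nlinarith
  have hcont : Continuous fun s : ℝ => max s r1 ^ (-(1 + m)) := by
    refine Continuous.rpow_const (by fun_prop) fun s => ?_
    left
    exact (lt_of_lt_of_le hr1 (le_max_right _ _)).ne'
  rw [intervalIntegral.integral_const_mul]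
  apply mul_le_mul_of_nonneg_left _ hK
  rw [← intervalIntegral.integral_add_adjacent_intervals (b := r1) (hcont.intervalIntegrable _ _)
    (hcont.intervalIntegrable _ _)]
  have h1 : ∫ s in b..r1, max s r1 ^ (-(1 + m)) = (r1 - b) * r1 ^ (-(1 + m)) := by
    rw [intervalIntegral.integral_congr (g := fun _ => r1 ^ (-(1 + m)))]
    · rw [intervalIntegral.integral_const, smul_eq_mul]
    · intro s hs
      rw [uIcc_of_le hbr1] at hs
      simp only
      rw [max_eq_right hs.2]
  have h2 : ∫ s in r1..1, max s r1 ^ (-(1 + m)) = (r1 ^ (-m) - 1) / m := by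
    rw [intervalIntegral.integral_congr (g := fun s => s ^ (-(1 + m)))]
    · rw [integral_rpow]
      · have e : -(1 + m) + 1 = -m := by ring
        rw [e, Real.one_rpow]
        field_simp
        ring
      · right
        refine ⟨by linarith [hm] |> ne_of_lt, ?_⟩
        rw [uIcc_of_le hr1']
        intro h
        exact absurd h.1 (not_le.2 hr1)
    · intro s hs
      rw [uIcc_of_le hr1'] at hs
      simp only
      rw [max_eq_left hs.1]
  rw [h1, h2]
  have e1 : r1 - b = r1 / n := by rw [hb]; field_simp; ring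
  have e2 : r1 / n * r1 ^ (-(1 + m)) = 1 / n * r1 ^ (-m) := by
    have : -m = 1 + -(1 + m) := by ring
    rw [this, Real.rpow_add hr1, Real.rpow_one]
    ring
  rw [e1, e2]
  have h3 : 0 < m := hm
  have : (r1 ^ (-m) - 1) / m ≤ 1 / m * r1 ^ (-m) := by
    rw [div_le_iff₀ hm]
    field_simp
    linarith
  linarith

end Pool.Agent.Helper73.RQ
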