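import Pool.Agent.Helper73.RQ.BLK1

/-!
# Packet BLK: constants and star functions
-/

set_option autoImplicit false

open MeasureTheory Set Filter Topology Metric

open scoped ENNReal NNReal ContDiff

namespace Pool.Agent.Helper73.RQ

open Pool.Agent.Helper12.RQ

theorem consts (n : ℕ) (p ε w κ : ℝ) (hn : 2 ≤ n) (hp : (n : ℝ) - 1 < p) (hpn : p < n)
    (hε : 0 < ε) (hw : 0 < w) (hκ : 0 < κ) :
    ∃ Y : ℝ, 0 < Y ∧
      (n / (n - 1) * (w / κ * (n * (n - p) / (p * (n - 1))) ^ (p - 1)) ^ (1 / (n - p)) =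
        (1 + ε) * (n / (n - 1) / Y)) ∧
      ∀ lam : ℝ, 0 < lam →
        w ^ (-(1 / (p - 1))) * ((1 / n + 1 / ((n - p) / (p - 1))) *
          (lam * Y) ^ (-((n - p) / (p - 1)))) =
        lam ^ (-((n - p) / (p - 1))) * (κ * (1 + ε) ^ (n - p)) ^ (-(1 / (p - 1))) := by
  have hn2 : (2 : ℝ) ≤ n := by exact_mod_cast hn
  have hn0 : (0 : ℝ) < n := by linarith
  have hn1 : (0 : ℝ) < n - 1 := by linarith
  have hd : 0 < n - p := by linarith
  have hq : 0 < p - 1 := by linarith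
  have hp0 : 0 < p := by linarith
  set d := n - p with hdd
  set q := p - 1 with hqq
  set Z := 1 / (n : ℝ) + 1 / (d / q) with hZ
  have hZ0 : 0 < Z := by positivity
  have hZinv : n * d / (p * (n - 1)) = Z⁻¹ := by
    rw [hZ]
    have e : p * (n - 1) = d + n * q := by rw [hdd, hqq]; ring
    rw [e]
    have : 0 < d + n * q := by positivity
    field_simp
  set W := κ * (1 + ε) ^ d / w * Z ^ q with hW
  have hε1 : 0 < 1 + ε := by linarith
  have hW0 : 0 < W := by positivity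
  refine ⟨W ^ (1 / d), by positivity, ?_, ?_⟩
  · rw [hZinv]
    have e1 : w / κ * Z⁻¹ ^ q = (1 + ε) ^ d * W⁻¹ := by
      rw [hW, Real.inv_rpow hZ0.le]
      have h1 : (1 + ε) ^ d ≠ 0 := (Real.rpow_pos_of_pos hε1 d).ne'
      have h2 : Z ^ q ≠ 0 := (Real.rpow_pos_of_pos hZ0 q).ne'
      field_simp
    rw [e1, Real.mul_rpow (by positivity) (by positivity), ← Real.rpow_mul hε1.le,
      mul_one_div_cancel hd.ne', Real.rpow_one, Real.inv_rpow hW0.le]
    field_simp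
  · intro lam hlam
    rw [Real.mul_rpow hlam.le (by positivity), ← Real.rpow_mul hW0.le]
    have e1 : 1 / d * -(d / q) = -(1 / q) := by field_simp
    rw [e1, hW, Real.mul_rpow (by positivity) (by positivity), ← Real.rpow_mul hZ0.le]
    have e2 : q * -(1 / q) = -1 := by field_simp
    rw [e2, Real.div_rpow (by positivity) hw.le, Real.rpow_neg_one]
    have h1 : w ^ (-(1 / q)) ≠ 0 := (Real.rpow_pos_of_pos hw _).ne'
    field_simp

/-! ## Star functions -/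

theorem star_gt {n : ℕ} {c l ρ v : ℝ} {N : E n → ℝ} (hN : IsStar c l N) (hρ : 0 < ρ)
    (hv : ∀ y, ‖y‖ = ρ → N y = v) (y : E n) (hy : ρ < ‖y‖) : v < N y := by
  have hy0 : 0 < ‖y‖ := hρ.trans hy
  have ht : ρ / ‖y‖ ∈ Icc (0 : ℝ) 1 := ⟨by positivity, (div_le_one hy0).2 hy.le⟩
  have h1 := hN.slope y (ρ / ‖y‖) ht
  have h2 : ‖(ρ / ‖y‖) • y‖ = ρ := by
    rw [norm_smul, Real.norm_of_nonneg ht.1]; field_simp
  rw [hv _ h2] at h1
  have h3 : ρ / ‖y‖ < 1 := (div_lt_one hy0).2 hy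
  have h4 : 0 < c * (1 - ρ / ‖y‖) * ‖y‖ := by
    have := hN.cpos
    have : 0 < 1 - ρ / ‖y‖ := by linarith
    positivity
  linarith

theorem star_lt {n : ℕ} {c l ρ v : ℝ} {N : E n → ℝ} (hN : IsStar c l N)
    (hv : ∀ y, ‖y‖ = ρ → N y = v) (y : E n) (hy0 : 0 < ‖y‖) (hy : ‖y‖ < ρ) : N y < v := by
  have hρ : 0 < ρ := hy0.trans hy
  have ht : ‖y‖ / ρ ∈ Icc (0 : ℝ) 1 := ⟨by positivity, (div_le_one hρ).2 hy.le⟩
  have hz : ‖(ρ / ‖y‖) • y‖ = ρ := by
    rw [norm_smul, Real.norm_of_nonneg (by positivity)]; field_simp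
  have h1 := hN.slope ((ρ / ‖y‖) • y) (‖y‖ / ρ) ht
  have h2 : (‖y‖ / ρ) • (ρ / ‖y‖) • y = y := by
    rw [smul_smul]
    have : ‖y‖ / ρ * (ρ / ‖y‖) = 1 := by field_simp
    rw [this, one_smul]
  rw [hv _ hz, hz, h2] at h1
  have h3 : ‖y‖ / ρ < 1 := (div_lt_one hρ).2 hy
  have h4 : 0 < c * (1 - ‖y‖ / ρ) * ρ := by
    have := hN.cpos
    have : 0 < 1 - ‖y‖ / ρ := by linarith
    positivity
  linarith

theorem star_scale {n : ℕ} {c l lam : ℝ} {N : E n → ℝ} (hN : IsStar c l N) (hlam : 0 < lam) :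
    IsStar (c / lam) (l / lam) (fun y => N (lam⁻¹ • y)) where
  cpos := div_pos hN.cpos hlam
  zero := by simp [hN.zero]
  lip := by
    intro y z
    have h1 := hN.lip (lam⁻¹ • y) (lam⁻¹ • z)
    rw [← smul_sub, norm_smul, Real.norm_of_nonneg (by positivity)] at h1
    refine h1.trans (le_of_eq ?_)
    field_simp
  slope := by
    intro y t ht
    have h1 := hN.slope (lam⁻¹ • y) t ht
    rw [norm_smul, Real.norm_of_nonneg (by positivity)] at h1
    rw [smul_comm t lam⁻¹ y] at h1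
    refine le_trans (le_of_eq ?_) h1
    field_simp

theorem dens_scale {n : ℕ} {p lam d₁ d₂ : ℝ} {N : E n → ℝ} {D : ℝ → ℝ≥0∞} (hS : StmtSCAL)
    (hp : 0 < p) (hN : Continuous N) (hD : IsDens p N D d₁ d₂) (hlam : 0 < lam) :
    IsDens p (fun y => N (lam⁻¹ • y)) (fun t => ENNReal.ofReal (lam ^ (n - p)) * D t)
      (lam ^ (n - p) * d₁) (lam ^ (n - p) * d₂) where
  meas := hD.meas.const_mul _
  pos := mul_pos (Real.rpow_pos_of_pos hlam _) hD.pos
  lower := by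
    intro t ht
    rw [mul_assoc, ENNReal.ofReal_mul (Real.rpow_nonneg hlam.le _)]
    gcongr
    exact hD.lower t ht
  upper := by
    intro t ht
    rw [mul_assoc, ENNReal.ofReal_mul (Real.rpow_nonneg hlam.le _)]
    gcongr
    exact hD.upper t ht
  flux_eq := by
    intro B hB hB0
    rw [hS n p hp N lam hlam hN B hB, hD.flux_eq B hB hB0,
      lintegral_const_mul' _ _ ENNReal.ofReal_ne_top]

/-! ## The inner region -/

theorem fder_pow {n : ℕ} {R₀ : E n → ℝ} {a σ g : ℝ} (ha : 0 < a) (hσ : 0 < σ)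
    (h : ∀ z : E n, a < ‖z‖ → ‖z‖ < g → R₀ z = a * (‖z‖ / a) ^ (1 + σ)) (y : E n)
    (hy : a < ‖y‖) (hyg : ‖y‖ < g) :
    ‖fderiv ℝ R₀ y‖ₑ ≤ ENNReal.ofReal ((1 + σ) * (‖y‖ / a) ^ σ) := by
  have hy0 : 0 < ‖y‖ := ha.trans hy
  have hyne : y ≠ 0 := norm_pos_iff.1 hy0
  have hev : R₀ =ᶠ[𝓝 y] fun z => a * (‖z‖ / a) ^ (1 + σ) := by
    have h1 : ∀ᶠ z in 𝓝 y, a < ‖z‖ := continuous_norm.continuousAt.eventually (lt_mem_nhds hy)
    have h2 : ∀ᶠ z in 𝓝 y, ‖z‖ < g := continuous_norm.continuousAt.eventually (gt_mem_nhds hyg)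
    filter_upwards [h1, h2] with z hz1 hz2 using h z hz1 hz2
  rw [hev.fderiv_eq]
  have hsa : 0 < ‖y‖ / a := div_pos hy0 ha
  have hd1 : HasDerivAt (fun s : ℝ => a * (s / a) ^ (1 + σ)) ((1 + σ) * (‖y‖ / a) ^ σ) ‖y‖ := by
    have h1 : HasDerivAt (fun s : ℝ => s / a) (1 / a) ‖y‖ := (hasDerivAt_id _).div_const a
    have h2 := (h1.rpow_const (p := 1 + σ) (Or.inl hsa.ne')).const_mul a
    refine h2.congr_deriv ?_
    have e : 1 + σ - 1 = σ := by ring
    rw [e]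
    field_simp
  have hd2 : HasFDerivAt (fun z : E n => ‖z‖) (fderiv ℝ (fun z : E n => ‖z‖) y) y := by
    apply DifferentiableAt.hasFDerivAt
    exact (contDiffAt_norm ℝ hyne (n := 1)).differentiableAt (by norm_num)
  have hd3 := hd1.comp_hasFDerivAt y hd2
  have hfd : fderiv ℝ (fun z : E n => a * (‖z‖ / a) ^ (1 + σ)) y =
      ((1 + σ) * (‖y‖ / a) ^ σ) • fderiv ℝ (fun z : E n => ‖z‖) y := hd3.fderiv
  rw [hfd, ← ofReal_norm]
  apply ENNReal.ofReal_le_ofReal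
  rw [norm_smul, Real.norm_of_nonneg (by positivity)]
  have h4 : ‖fderiv ℝ (fun z : E n => ‖z‖) y‖ ≤ 1 := by
    have := norm_fderiv_le_of_lipschitz ℝ (f := fun z : E n => ‖z‖) (x₀ := y) (C := 1)
      lipschitzWith_one_norm
    simpa using this
  have h5 : 0 ≤ (1 + σ) * (‖y‖ / a) ^ σ := by positivity
  nlinarith

theorem inner1 {n : ℕ} {p a σ g g' ε : ℝ} {R₀ : E n → ℝ} (hn : 2 ≤ n) (hp : 0 ≤ p) (hpn : p ≤ n)
    (ha : 0 < a) (hσ : 0 < σ) (hε : (1 + σ) ^ p ≤ 1 + ε) (hg : a ≤ g') (hg' : g' ≤ g)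
    (h : ∀ z : E n, a < ‖z‖ → ‖z‖ < g → R₀ z = a * (‖z‖ / a) ^ (1 + σ)) :
    ∫⁻ y in {y : E n | ‖y‖ ∈ Ioo a g'}, ‖fderiv ℝ R₀ y‖ₑ ^ p ≤
      ENNReal.ofReal ((1 + ε) * (om n / n * ((a * (g' / a) ^ (1 + σ)) ^ n - a ^ n))) := by
  refine le_trans ?_ (inner_bound n p σ a g' ε hn hp hpn hσ ha hg hε)
  rw [← polar n (by omega) (fun s => ENNReal.ofReal ((1 + σ) * (s / a) ^ σ) ^ p) (by fun_prop)
    (Ioo a g') measurableSet_Ioo (fun s hs => ha.trans hs.1)]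
  refine setLIntegral_mono' (measurable_norm measurableSet_Ioo) fun y hy => ?_
  exact ENNReal.rpow_le_rpow (fder_pow ha hσ h y hy.1 (lt_of_lt_of_le hy.2 hg')) hp

theorem inner2 {n : ℕ} {p a σ g b' ε : ℝ} {R₀ : E n → ℝ} (hn : 2 ≤ n) (hp : 0 ≤ p)
    (ha : 0 < a) (hσ : 0 < σ) (hε : (1 + σ) ^ p ≤ 1 + ε) (hg : a < g) (hb' : 0 < b')
    (hgb : (g / a) ^ σ = b' / g)
    (h : ∀ z : E n, a < ‖z‖ → ‖z‖ < g → R₀ z = a * (‖z‖ / a) ^ (1 + σ)) :
    ∫⁻ y in {y : E n | ‖y‖ ∈ Ioo a g}, ‖fderiv ℝ R₀ y‖ₑ ^ p ≤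
      ENNReal.ofReal ((1 + ε) * (om n / n * (b' ^ p * g ^ (n - p)))) := by
  have hg0 : 0 < g := ha.trans hg
  have hom : 0 < om n := om_pos n (by omega)
  have hn0 : (0 : ℝ) < n := by
    have : 0 < n := by omega
    exact_mod_cast this
  have h1σ : 0 < 1 + σ := by linarith
  calc ∫⁻ y in {y : E n | ‖y‖ ∈ Ioo a g}, ‖fderiv ℝ R₀ y‖ₑ ^ p
      ≤ ∫⁻ y in {y : E n | ‖y‖ ∈ Ioo a g}, ENNReal.ofReal (((1 + σ) * (b' / g)) ^ p) := by
        refine setLIntegral_mono' (measurable_norm measurableSet_Ioo) fun y hy => ?_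
        have h1 := fder_pow ha hσ h y hy.1 hy.2
        have hy1 : a < ‖y‖ := hy.1
        have hy2 : ‖y‖ < g := hy.2
        have h2 : ENNReal.ofReal ((1 + σ) * (‖y‖ / a) ^ σ) ≤
            ENNReal.ofReal ((1 + σ) * (b' / g)) := by
          apply ENNReal.ofReal_le_ofReal
          rw [← hgb]
          have : (‖y‖ / a) ^ σ ≤ (g / a) ^ σ :=
            Real.rpow_le_rpow (by positivity) (by gcongr) hσ.le
          nlinarith
        rw [← ENNReal.ofReal_rpow_of_nonneg (by positivity) hp]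
        exact ENNReal.rpow_le_rpow (h1.trans h2) hp
    _ ≤ ∫⁻ y in ball (0 : E n) g, ENNReal.ofReal (((1 + σ) * (b' / g)) ^ p) := by
        apply lintegral_mono_set
        intro y hy
        rw [mem_ball_zero_iff]
        exact hy.2
    _ = ENNReal.ofReal (((1 + σ) * (b' / g)) ^ p) * ENNReal.ofReal (om n / n * g ^ n) := by
        rw [setLIntegral_const, vol_ball n (by omega) 0 g hg0.le]
    _ ≤ _ := by
        rw [← ENNReal.ofReal_mul (by positivity)]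
        apply ENNReal.ofReal_le_ofReal
        rw [Real.mul_rpow h1σ.le (by positivity), Real.div_rpow hb'.le hg0.le]
        have e1 : g ^ (n - p) = g ^ n / g ^ p := by
          rw [Real.rpow_sub hg0, Real.rpow_natCast]
        rw [e1]
        have e2 : 0 ≤ b' ^ p / g ^ p * (om n / n * g ^ n) := by positivity
        calc (1 + σ) ^ p * (b' ^ p / g ^ p) * (om n / n * g ^ n) =
            (1 + σ) ^ p * (b' ^ p / g ^ p * (om n / n * g ^ n)) := by ring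
          _ ≤ (1 + ε) * (b' ^ p / g ^ p * (om n / n * g ^ n)) :=
            mul_le_mul_of_nonneg_right hε e2
          _ = _ := by ring

/-! ## Choice of the parameters -/

theorem exists_a {σ g b' : ℝ} (hσ : 0 < σ) (hg : 0 < g) (hgb : g < b') :
    ∃ a : ℝ, 0 < a ∧ a < g ∧ a * (g / a) ^ (1 + σ) = b' ∧ (g / a) ^ σ = b' / g := by
  have h1 : 1 < b' / g := (one_lt_div hg).2 hgb
  have h0 : 0 < b' / g := by linarith
  set u := (b' / g) ^ (1 / σ) with hu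
  have hu1 : 1 < u := Real.one_lt_rpow h1 (by positivity)
  have hu0 : 0 < u := by linarith
  have huσ : u ^ σ = b' / g := by
    rw [hu, ← Real.rpow_mul h0.le, one_div_mul_cancel hσ.ne', Real.rpow_one]
  have e : g / (g / u) = u := by field_simp
  refine ⟨g / u, by positivity, (div_lt_iff₀ hu0).2 (by nlinarith), ?_, ?_⟩
  · rw [e, Real.rpow_add hu0, Real.rpow_one, huσ]
    field_simp
  · rw [e, huσ]

theorem exists_small {k d η : ℝ} (hk : 0 < k) (hd : 0 < d) (hη : 0 < η) :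
    ∃ g₀ : ℝ, 0 < g₀ ∧ ∀ g, 0 ≤ g → g ≤ g₀ → k * g ^ d ≤ η := by
  refine ⟨(η / k) ^ (1 / d), by positivity, fun g hg hg' => ?_⟩
  have h1 : g ^ d ≤ ((η / k) ^ (1 / d)) ^ d := Real.rpow_le_rpow hg hg' hd.le
  rw [← Real.rpow_mul (by positivity), one_div_mul_cancel hd.ne', Real.rpow_one] at h1
  calc k * g ^ d ≤ k * (η / k) := mul_le_mul_of_nonneg_left h1 hk.le
    _ = η := by field_simp

theorem exists_sigma {p ε : ℝ} (hp : 0 < p) (hε : 0 < ε) :
    ∃ σ : ℝ, 0 < σ ∧ (1 + σ) ^ p ≤ 1 + ε := by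
  refine ⟨(1 + ε) ^ (1 / p) - 1, ?_, ?_⟩
  · have := Real.one_lt_rpow (x := 1 + ε) (z := 1 / p) (by linarith) (by positivity)
    linarith
  · have e : 1 + ((1 + ε) ^ (1 / p) - 1) = (1 + ε) ^ (1 / p) := by ring
    rw [e, ← Real.rpow_mul (by linarith), one_div_mul_cancel hp.ne', Real.rpow_one]

end Pool.Agent.Helper73.RQ
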