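import Pool.Agent.Helper73.RQ.BLK2

/-!
# Packet BLK: the pieces
-/

set_option autoImplicit false

open MeasureTheory Set Filter Topology Metric

open scoped ENNReal NNReal ContDiff

namespace Pool.Agent.Helper73.RQ

open Pool.Agent.Helper12.RQ

theorem chain_one {n : ℕ} {p c l : ℝ} {N : E n → ℝ} {D : ℝ → ℝ≥0∞} {d₁ d₂ : ℝ} (h4 : StmtCHAIN)
    (hn : 2 ≤ n) (hp : 1 ≤ p) (hN : IsStar c l N) (hD : IsDens p N D d₁ d₂) {h : ℝ → ℝ} {C : ℝ≥0}
    (hh : LipschitzWith C h) {B : Set ℝ} (hB : MeasurableSet B) (hB0 : B ⊆ Ioi 0) :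
    ∫⁻ y in N ⁻¹' B, ‖fderiv ℝ (fun z => h (N z)) y‖ₑ ^ p =
      ∫⁻ t in B, ‖deriv h t‖ₑ ^ p * D t := by
  have h1 := h4 n p c l N D d₁ d₂ hn hp hN hD h C hh B hB hB0 (fun _ => 1) measurable_const
  simpa using h1

theorem piece_lin {n : ℕ} {p c l : ℝ} {N : E n → ℝ} {D : ℝ → ℝ≥0∞} {d₁ d₂ : ℝ} (h4 : StmtCHAIN)
    (hn : 2 ≤ n) (hp : 1 ≤ p) (hN : IsStar c l N) (hD : IsDens p N D d₁ d₂) {h : ℝ → ℝ} {C : ℝ≥0}
    (hh : LipschitzWith C h) {δ₁ b' K : ℝ} (hδ : 0 < δ₁) (hK : 0 ≤ K) (hd₂ : 0 ≤ d₂)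
    (hl : ∀ t ∈ Icc δ₁ 1, h t = b' + K * (t - δ₁)) :
    ∫⁻ y in N ⁻¹' Ioo δ₁ 1, ‖fderiv ℝ (fun z => h (N z)) y‖ₑ ^ p ≤ ENNReal.ofReal (d₂ * K ^ p) := by
  rw [chain_one h4 hn hp hN hD hh measurableSet_Ioo (fun t ht => hδ.trans ht.1)]
  calc ∫⁻ t in Ioo δ₁ 1, ‖deriv h t‖ₑ ^ p * D t
      ≤ ∫⁻ t in Ioo δ₁ 1, ENNReal.ofReal (d₂ * K ^ p) := by
        refine setLIntegral_mono' measurableSet_Ioo fun t ht => ?_
        have hev : h =ᶠ[𝓝 t] fun t => b' + K * (t - δ₁) := by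
          filter_upwards [Ioo_mem_nhds ht.1 ht.2] with s hs using hl s ⟨hs.1.le, hs.2.le⟩
        have hder : deriv h t = K := by
          rw [hev.deriv_eq]
          have : HasDerivAt (fun t => b' + K * (t - δ₁)) (K * 1) t :=
            (((hasDerivAt_id t).sub_const δ₁).const_mul K).const_add b'
          rw [this.deriv, mul_one]
        rw [hder]
        have h5 := hD.upper t (hδ.trans ht.1)
        have h6 : ENNReal.ofReal (d₂ * t ^ (n - 1)) ≤ ENNReal.ofReal d₂ := by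
          apply ENNReal.ofReal_le_ofReal
          have : t ^ (n - 1) ≤ 1 := pow_le_one₀ (hδ.trans ht.1).le ht.2.le
          nlinarith
        have h7 : ‖K‖ₑ = ENNReal.ofReal K := by
          rw [← ofReal_norm, Real.norm_of_nonneg hK]
        rw [h7, ENNReal.ofReal_rpow_of_nonneg hK (by linarith), ENNReal.ofReal_mul hd₂, mul_comm]
        gcongr
        exact h5.trans h6
    _ = ENNReal.ofReal (d₂ * K ^ p) * ENNReal.ofReal (1 - δ₁) := by
        rw [setLIntegral_const, Real.volume_Ioo]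
    _ ≤ ENNReal.ofReal (d₂ * K ^ p) * 1 := by
        gcongr
        rw [ENNReal.ofReal_le_one]
        linarith
    _ = _ := mul_one _

theorem piece_flux {n : ℕ} {p c l : ℝ} {N : E n → ℝ} {D : ℝ → ℝ≥0∞} {d₁ d₂ : ℝ} (h4 : StmtCHAIN)
    (hn : 2 ≤ n) (hp : 1 ≤ p) (hN : IsStar c l N) (hD : IsDens p N D d₁ d₂) {h : ℝ → ℝ} {C : ℝ≥0}
    (hh : LipschitzWith C h) {T b r : ℝ} {θ h₁ : ℝ → ℝ}
    (hl : ∀ t ∈ Icc 1 T, h t = h₁ t)
    (hf : ∀ ψ : ℝ → ℝ≥0∞, Measurable ψ → ∫⁻ t in Ioo 1 T, ψ (h₁ t) * ‖deriv h₁ t‖ₑ ^ p * D t ≤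
      ∫⁻ s in Ioo b 1, ψ s * ENNReal.ofReal (θ s ^ (1 - p))) :
    ∫⁻ y in N ⁻¹' Ioo 1 T ∩ {y | h (N y) < r}, ‖fderiv ℝ (fun z => h (N z)) y‖ₑ ^ p ≤
      ∫⁻ s in Ioo b r, ENNReal.ofReal (θ s ^ (1 - p)) := by
  have hNc : Continuous N := by
    have : LipschitzWith (Real.toNNReal l) N := by
      refine LipschitzWith.of_dist_le_mul fun x y => ?_
      have h1 := hN.lip x y
      rw [Real.dist_eq, dist_eq_norm]
      refine h1.trans ?_
      gcongr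
      exact Real.le_coe_toNNReal l
    exact this.continuous
  have hm : MeasurableSet {y : E n | h (N y) < r} :=
    (isOpen_lt (hh.continuous.comp hNc) continuous_const).measurableSet
  have hψ : Measurable ((Iio r).indicator (fun _ => (1 : ℝ≥0∞))) :=
    measurable_const.indicator measurableSet_Iio
  rw [inter_comm, ← setLIntegral_indicator hm]
  have e1 : ∀ y : E n, {y : E n | h (N y) < r}.indicator
      (fun y => ‖fderiv ℝ (fun z => h (N z)) y‖ₑ ^ p) y =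
      (Iio r).indicator (fun _ => (1 : ℝ≥0∞)) (h (N y)) *
        ‖fderiv ℝ (fun z => h (N z)) y‖ₑ ^ p := by
    intro y
    by_cases hy : h (N y) < r
    · rw [indicator_of_mem (show y ∈ {y : E n | h (N y) < r} from hy),
        indicator_of_mem (show h (N y) ∈ Iio r from hy), one_mul]
    · rw [indicator_of_notMem (show y ∉ {y : E n | h (N y) < r} from hy),
        indicator_of_notMem (show h (N y) ∉ Iio r from hy), zero_mul]
  simp only [e1]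
  rw [h4 n p c l N D d₁ d₂ hn hp hN hD h C hh (Ioo 1 T) measurableSet_Ioo
    (fun t ht => lt_trans one_pos ht.1) _ hψ]
  have e2 : ∫⁻ t in Ioo 1 T, (Iio r).indicator (fun _ => (1 : ℝ≥0∞)) (h t) * ‖deriv h t‖ₑ ^ p * D t =
      ∫⁻ t in Ioo 1 T, (Iio r).indicator (fun _ => (1 : ℝ≥0∞)) (h₁ t) *
        ‖deriv h₁ t‖ₑ ^ p * D t := by
    refine setLIntegral_congr_fun measurableSet_Ioo fun t ht => ?_
    have hev : h =ᶠ[𝓝 t] h₁ := by
      filter_upwards [Ioo_mem_nhds ht.1 ht.2] with s hs using hl s ⟨hs.1.le, hs.2.le⟩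
    rw [hev.deriv_eq, hl t ⟨ht.1.le, ht.2.le⟩]
  rw [e2]
  refine (hf _ hψ).trans ?_
  have e3 : ∀ s : ℝ, (Iio r).indicator (fun _ => (1 : ℝ≥0∞)) s * ENNReal.ofReal (θ s ^ (1 - p)) =
      (Iio r).indicator (fun s => ENNReal.ofReal (θ s ^ (1 - p))) s := by
    intro s
    by_cases hs : s ∈ Iio r
    · rw [indicator_of_mem hs, indicator_of_mem hs, one_mul]
    · rw [indicator_of_notMem hs, indicator_of_notMem hs, zero_mul]
  simp only [e3]
  rw [setLIntegral_indicator measurableSet_Iio]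
  apply lintegral_mono_set
  intro s hs
  exact ⟨hs.2.1, hs.1⟩

/-- the reciprocal profile `θ` of the outer region -/
theorem theta_pow {n : ℕ} {p w r1 s : ℝ} (hn : 2 ≤ n) (hp : 1 < p) (hw : 0 < w) (hr1 : 0 < r1) :
    (w ^ (-(1 / (p - 1))) * max s r1 ^ (-(1 + (n - p) / (p - 1)))) ^ (1 - p) =
      w * max s r1 ^ (n - 1) := by
  have hq : 0 < p - 1 := by linarith
  have hx : 0 < max s r1 := lt_of_lt_of_le hr1 (le_max_right _ _)
  rw [Real.mul_rpow (by positivity) (by positivity), ← Real.rpow_mul hw.le, ← Real.rpow_mul hx.le]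
  have e1 : -(1 / (p - 1)) * (1 - p) = 1 := by field_simp; ring
  have e2 : -(1 + (n - p) / (p - 1)) * (1 - p) = ((n - 1 : ℕ) : ℝ) := by
    rw [Nat.cast_sub (by omega : 1 ≤ n)]
    push_cast
    field_simp
    ring
  rw [e1, e2, Real.rpow_one, Real.rpow_natCast]

/-- the hypothesis of FLUX -/
theorem flux_hyp {n : ℕ} {p lam k : ℝ} {D : ℝ → ℝ≥0∞} {T : ℝ} {S : ℝ≥0∞}
    (hlam : 0 < lam) (hk : 0 < k) (hS : S = ENNReal.ofReal k)
    (h : S ^ (-(1 / (p - 1))) ≤ ∫⁻ t in Ioo 1 T, D t ^ (-(1 / (p - 1)))) :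
    ENNReal.ofReal (lam ^ (-((n - p) / (p - 1))) * k ^ (-(1 / (p - 1)))) ≤
      ∫⁻ t in Ioo 1 T, (ENNReal.ofReal (lam ^ (n - p)) * D t) ^ (-(1 / (p - 1))) := by
  have hl : 0 < lam ^ (n - p) := Real.rpow_pos_of_pos hlam _
  have e1 : ∀ t, (ENNReal.ofReal (lam ^ (n - p)) * D t) ^ (-(1 / (p - 1))) =
      ENNReal.ofReal (lam ^ (-((n - p) / (p - 1)))) * D t ^ (-(1 / (p - 1))) := by
    intro t
    rw [ENNReal.mul_rpow_eq_ite, if_neg]
    · rw [ENNReal.ofReal_rpow_of_pos hl, ← Real.rpow_mul hlam.le]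
      congr 3
      ring
    · rintro ⟨(⟨h1, _⟩ | ⟨h1, _⟩), _⟩
      · rw [ENNReal.ofReal_eq_zero] at h1
        linarith
      · exact ENNReal.ofReal_ne_top h1
  simp only [e1]
  rw [lintegral_const_mul' _ _ ENNReal.ofReal_ne_top, ENNReal.ofReal_mul (by positivity)]
  gcongr
  rw [hS, ENNReal.ofReal_rpow_of_pos hk] at h
  exact h

end Pool.Agent.Helper73.RQ
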